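import Pool.Agent.H.MP_7d9e78_al.A

universe u

namespace Pool.Agent.Results.MP_7d9e78_al.No

def IsId (F : Type) [Field F] (A : Type) [NonUnitalNonAssocRing A] [Module F A]
    [IsScalarTower F A A] [SMulCommClass F A A] (g : FreeNonUnitalNonAssocAlgebra F ℕ) : Prop :=
  ∀ ρ : ℕ → A, FreeNonUnitalNonAssocAlgebra.lift F ρ g = 0

def plusMul (F : Type) [Field F] {B : Type u} [NonUnitalRing B] [Module F B] (a b : B) : B :=
  (2 : F)⁻¹ • (a * b + b * a)

def Embeds (F : Type) [Field F] (A : Type) [NonUnitalNonAssocRing A] [Module F A]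
    (B : Type u) [NonUnitalRing B] [Module F B] : Prop :=
  ∃ φ : A →ₗ[F] B, Function.Injective φ ∧ ∀ x y : A, φ (x * y) = plusMul F (φ x) (φ y)

def Special (F : Type) [Field F] (A : Type) [NonUnitalNonAssocRing A] [Module F A] : Prop :=
  ∃ (B : Type u) (_ : NonUnitalRing B) (_ : Module F B),
    IsScalarTower F B B ∧ SMulCommClass F B B ∧ Embeds F A B

def bilMul {F : Type} [Field F] {V : Type} [AddCommGroup V] [Module F V]
    (f : V → V → F) (a b : F × V) : F × V :=
  (a.1 * b.1 + f a.2 b.2, a.1 • b.2 + b.1 • a.2)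

def IsBil (F : Type) [Field F] (V : Type) [AddCommGroup V] [Module F V]
    (f : V → V → F) (J : Type) [NonUnitalNonAssocRing J] [Module F J] : Prop :=
  ∃ e : J ≃ₗ[F] F × V, ∀ x y : J, e (x * y) = bilMul f (e x) (e y)

def IsJordanRing (A : Type) [Mul A] : Prop :=
  (∀ x y : A, x * y = y * x) ∧ ∀ x y : A, ((x * x) * y) * x = (x * x) * (y * x)

def VarNonSpecial (F : Type) [Field F] (J : Type) [NonUnitalNonAssocRing J] [Module F J]
    [IsScalarTower F J J] [SMulCommClass F J J] : Prop :=
  ∃ (A : Type) (_ : NonUnitalNonAssocRing A) (_ : Module F A) (_ : IsScalarTower F A A)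
    (_ : SMulCommClass F A A),
    IsJordanRing A ∧ (∀ g, IsId F J g → IsId F A g) ∧ ¬ Special.{u} F A

def SymNondeg {F V : Type} [Zero F] [Zero V] (f : V → V → F) : Prop :=
  (∀ v w, f v w = f w v) ∧ ∀ v, (∀ w, f v w = 0) → v = 0

def BadForm (F : Type) [Field F] (V : Type) [AddCommGroup V] [Module F V] (f : V → V → F) : Prop :=
  ∃ (J : Type) (_ : NonUnitalNonAssocRing J) (_ : Module F J) (_ : IsScalarTower F J J)
    (_ : SMulCommClass F J J), IsBil F V f J ∧ VarNonSpecial.{u} F J

def Fails (F : Type) [Field F] : Prop :=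
  ∃ (V : Type) (_ : AddCommGroup V) (_ : Module F V) (f : V →ₗ[F] V →ₗ[F] F),
    Module.finrank F V = 3 ∧ SymNondeg (fun v w => f v w) ∧ BadForm.{u} F V fun v w => f v w

open Pool.Agent.H.MP_c03fb1_al Pool.Agent.H.MP_7d9e78_al in
theorem aux (F : Type) [Field F] [CharP F 3] [Infinite F] : Fails.{u} F := by
  refine ⟨F × F × F, inferInstance, inferInstance,
    LinearMap.mk₂ F (fun v w => v.1 * w.1 + v.2.1 * w.2.1 + v.2.2 * w.2.2)
      (fun x x' y => by simp; ring) (fun c x y => by simp; ring)
      (fun x y y' => by simp; ring) (fun c x y => by simp; ring), by simp, ⟨?_, ?_⟩,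
    Alg (bJ F), inferInstance, inferInstance, inferInstance, inferInstance,
    ⟨LinearEquiv.refl F (Q4 F), fun x y => rfl⟩,
    Alg (bA F), inferInstance, inferInstance, inferInstance, inferInstance, ⟨?_, ?_⟩,
    fun g hg => satA hg, ?_⟩
  · intro v w
    simp only [LinearMap.mk₂_apply]
    ring
  · rintro ⟨a, b, c⟩ h
    have h1 := h (1, 0, 0)
    have h2 := h (0, 1, 0)
    have h3 := h (0, 0, 1)
    simp at h1 h2 h3
    simp [h1, h2, h3]
  · intro x y
    have := satA (K := F) (f := FreeNonUnitalNonAssocAlgebra.of F 0 *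
        FreeNonUnitalNonAssocAlgebra.of F 1 - FreeNonUnitalNonAssocAlgebra.of F 1 *
        FreeNonUnitalNonAssocAlgebra.of F 0) (fun ρ => by
      simp only [ev_sub, ev_mul, ev_of, bJ_apply]
      rw [jm_comm, sub_self]) (fun i => if i = 0 then x else y)
    simp only [ev_sub, ev_mul, ev_of] at this
    exact sub_eq_zero.1 this
  · intro x y
    have := satA (K := F) (f := ((FreeNonUnitalNonAssocAlgebra.of F 0 *
        FreeNonUnitalNonAssocAlgebra.of F 0) * FreeNonUnitalNonAssocAlgebra.of F 1) *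
        FreeNonUnitalNonAssocAlgebra.of F 0 - (FreeNonUnitalNonAssocAlgebra.of F 0 *
        FreeNonUnitalNonAssocAlgebra.of F 0) * (FreeNonUnitalNonAssocAlgebra.of F 1 *
        FreeNonUnitalNonAssocAlgebra.of F 0)) (fun ρ => by
      simp only [ev_sub, ev_mul, ev_of, bJ_apply, jm]
      ext <;> simp <;> ring) (fun i => if i = 0 then x else y)
    simp only [ev_sub, ev_mul, ev_of] at this
    exact sub_eq_zero.1 this
  · rintro ⟨B, _, _, _, _, φ, hφ, hm⟩
    obtain ⟨x, y, z, h0, h1⟩ := key (K := F)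
    have h3 : (3 : F) = 0 := by exact_mod_cast CharP.cast_eq_zero F 3
    have h2 : (2 : F)⁻¹ = -1 := by
      apply inv_eq_of_mul_eq_one_right
      linear_combination -h3
    have hB : ∀ b : B, b + b + b = 0 := fun b => by
      have : (3 : F) • b = b + b + b := by
        rw [show (3 : F) = 1 + 1 + 1 by norm_num, add_smul, add_smul, one_smul]
      rw [← this, h3, zero_smul]
    have hm' : ∀ a b, φ (bA F a b) = -(φ a * φ b + φ b * φ a) := fun a b => by
      have := hm a b
      unfold plusMul at this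
      rw [h2, neg_one_smul] at this
      exact this
    have hU : ∀ a w, φ (UU (bA F) a w) = φ a * φ w * φ a := fun a w => by
      have e : φ (UU (bA F) a w) = φ (bA F a (bA F a w)) + φ (bA F a (bA F a w))
          - φ (bA F (bA F a a) w) := by
        rw [← map_add, ← map_sub]; rfl
      rw [e]
      simp only [hm']
      linear_combination (norm := noncomm_ring) hB (φ a * φ w * φ a)
    have hxy : φ x * φ y = -(φ y * φ x) := by
      have := hm' x y
      rw [h0] at this
      have h4 : φ (0 : Alg (bA F)) = 0 := map_zero φ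
      exact eq_neg_of_add_eq_zero_left (neg_eq_zero.1 (this.symm.trans h4))
    apply h1
    apply hφ
    refine (hU x _).trans (Eq.trans ?_ (hU y _).symm)
    erw [hU y z, hU x z]
    have e1 : φ x * (φ y * φ z * φ y) * φ x = (φ x * φ y) * φ z * (φ y * φ x) := by noncomm_ring
    have e2 : φ y * (φ x * φ z * φ x) * φ y = (φ y * φ x) * φ z * (φ x * φ y) := by noncomm_ring
    rw [e1, e2, hxy]
    noncomm_ring

theorem result : (∃ (F : Type) (_ : Field F), Infinite F ∧ CharP F 3 ∧ Fails.{u} F) ∧
    ∀ (F : Type) [Field F] [CharP F 3] [Infinite F], Fails.{u} F :=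
  ⟨⟨AlgebraicClosure (ZMod 3), inferInstance, inferInstance, inferInstance, aux _⟩,
    fun F _ _ _ => aux F⟩

end Pool.Agent.Results.MP_7d9e78_al.No
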